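import Mathlib

/-!
# Alternating chains of stackable and non-stackable graphs
-/

namespace Pool.Agent.Results.MP_28cddd_co.AlternatingChains

set_option linter.unusedSimpArgs false
set_option linter.unusedSectionVars false

open Finset Relation

/-- A legal move of cup stacking on `G`: a vertex `x` carrying `r = s x ≥ 1` cups and a vertex
`y ≠ x` carrying at least one cup with `dist x y = r`; all cups of `x` go to `y`. -/
def Move {V : Type} [DecidableEq V] (G : SimpleGraph V) (s s' : V → ℕ) : Prop :=
  ∃ x y : V, x ≠ y ∧ 1 ≤ s x ∧ 1 ≤ s y ∧ G.dist x y = s x ∧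
    s' = Function.update (Function.update s y (s y + s x)) x 0

/-- `G` is `t`-stackable. -/
def TStackable {V : Type} [DecidableEq V] (G : SimpleGraph V) (t : V) : Prop :=
  ∃ s : V → ℕ, ReflTransGen (Move G) (fun _ => 1) s ∧ ∀ v, v ≠ t → s v = 0

/-- `G` is stackable. -/
def Stackable {V : Type} [DecidableEq V] (G : SimpleGraph V) : Prop :=
  ∀ t : V, TStackable G t

/-! ### Collecting cups -/

section collect

variable {V : Type} [DecidableEq V] {G : SimpleGraph V}

/-- All cups of `A` (one on each vertex) can be collected on `x`. -/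
def Col (G : SimpleGraph V) (A : Finset V) (x : V) : Prop :=
  x ∉ A ∧ ∀ s : V → ℕ, (∀ y ∈ A, s y = 1) → 1 ≤ s x →
    ReflTransGen (Move G) s (fun v => if v = x then s x + A.card else if v ∈ A then 0 else s v)

lemma col_empty (x : V) : Col G ∅ x := by
  refine ⟨by simp, fun s _ _ => ?_⟩
  have : (fun v => if v = x then s x + (∅ : Finset V).card else if v ∈ (∅ : Finset V) then 0
      else s v) = s := by
    funext v
    by_cases h : v = x
    · simp [h]
    · simp [h]
  rw [this]

lemma col_union {A B : Finset V} {x : V} (hA : Col G A x) (hB : Col G B x)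
    (hd : Disjoint A B) : Col G (A ∪ B) x := by
  obtain ⟨hxA, hA⟩ := hA
  obtain ⟨hxB, hB⟩ := hB
  refine ⟨by simp [hxA, hxB], fun s hs hx => ?_⟩
  have h1 := hA s (fun y hy => hs y (mem_union_left _ hy)) hx
  refine h1.trans ?_
  have h2 := hB (fun v => if v = x then s x + A.card else if v ∈ A then 0 else s v) ?_ ?_
  · convert h2 using 1
    funext v
    by_cases hv : v = x
    · simp [hv, card_union_of_disjoint hd, Nat.add_assoc]
    · by_cases hvB : v ∈ B
      · simp [hv, hvB]
      · by_cases hvA : v ∈ A
        · simp [hv, hvA]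
        · simp [hv, hvA, hvB]
  · intro y hy
    have hyx : y ≠ x := fun h => hxB (h ▸ hy)
    have hyA : y ∉ A := fun h => (disjoint_left.mp hd h) hy
    simp [hyx, hyA, hs y (mem_union_right _ hy)]
  · simp only [if_true]
    omega

lemma col_jump {A : Finset V} {x y : V} (hA : Col G A y) (hxy : x ≠ y) (hxA : x ∉ A)
    (hd : G.dist y x = A.card + 1) : Col G (insert y A) x := by
  obtain ⟨hyA, hA⟩ := hA
  refine ⟨by simp [hxy, hxA], fun s hs hx => ?_⟩
  have hy1 : s y = 1 := hs y (mem_insert_self _ _)
  have h1 := hA s (fun z hz => hs z (mem_insert_of_mem hz)) (by omega)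
  refine h1.tail ⟨y, x, hxy.symm, ?_, ?_, ?_, ?_⟩
  · simp only [if_true]; omega
  · simp [hxy, hxA, hx]
  · simp only [if_true]; omega
  · funext v
    by_cases hvy : v = y
    · subst hvy
      simp [hxy.symm]
    · by_cases hvx : v = x
      · subst hvx
        simp [hxy, hxA, card_insert_of_notMem hyA]
        omega
      · simp [hvy, hvx]

lemma col_single {x y : V} (h : G.Adj y x) : Col G {y} x := by
  have := col_jump (G := G) (col_empty y) (x := x) h.ne' (by simp)
    (by rw [SimpleGraph.dist_eq_one_iff_adj.mpr h]; simp)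
  simpa using this

lemma col_adj {A : Finset V} {x : V} (h : ∀ y ∈ A, G.Adj y x) : Col G A x := by
  induction A using Finset.induction_on with
  | empty => exact col_empty x
  | insert a A ha ih =>
    rw [insert_eq]
    refine col_union (col_single (h a (mem_insert_self _ _)))
      (ih fun y hy => h y (mem_insert_of_mem hy)) ?_
    rw [disjoint_singleton_left]
    exact ha

/-- Cups along a path can be collected at its first vertex. -/
lemma col_path (hG : G.Connected) : ∀ (m : ℕ) (f : ℕ → V),
    (∀ i < m, G.Adj (f i) (f (i + 1))) → Set.InjOn f (Set.Iic m) →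
    Col G ((Ioc 0 m).image f) (f 0) := by
  classical
  intro m
  induction m using Nat.strong_induction_on with
  | _ m ih =>
  intro f hadj hinj
  rcases Nat.eq_zero_or_pos m with rfl | hm
  · simpa using col_empty (G := G) (f 0)
  have inj : ∀ {i j : ℕ}, i ≤ m → j ≤ m → f i = f j → i = j := fun hi hj h => hinj hi hj h
  have shift : ∀ a, 0 < a → a ≤ m → Col G ((Ioc a m).image f) (f a) := by
    intro a ha ham
    have h := ih (m - a) (by omega) (fun j => f (a + j))
      (fun i hi => by
        have := hadj (a + i) (by omega)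
        rwa [Nat.add_assoc] at this)
      (fun i hi j hj h => by
        simp only [Set.mem_Iic] at hi hj
        have := inj (i := a + i) (j := a + j) (by omega) (by omega) h
        omega)
    have e : (Ioc 0 (m - a)).image (fun j => f (a + j)) = (Ioc a m).image f := by
      ext v
      simp only [mem_image, mem_Ioc]
      constructor
      · rintro ⟨j, ⟨h1, h2⟩, rfl⟩
        exact ⟨a + j, ⟨by omega, by omega⟩, rfl⟩
      · rintro ⟨j, ⟨h1, h2⟩, rfl⟩
        exact ⟨j - a, ⟨by omega, by omega⟩, by rw [Nat.add_sub_cancel' (le_of_lt h1)]⟩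
    rw [e] at h
    simpa using h
  have front : ∀ a, a < m → Col G ((Ioc 0 a).image f) (f 0) := by
    intro a ha
    exact ih a ha f (fun i hi => hadj i (by omega))
      (fun i hi j hj h => inj (le_trans hi ha.le) (le_trans hj ha.le) h)
  have cardI : ∀ a b, b ≤ m → ((Ioc a b).image f).card = b - a := by
    intro a b hb
    rw [card_image_of_injOn, Nat.card_Ioc]
    intro i hi j hj h
    simp only [coe_Ioc, Set.mem_Ioc] at hi hj
    exact inj (by omega) (by omega) h
  set P : ℕ → Prop := fun i => 1 ≤ i ∧ G.dist (f i) (f 0) ≤ m - i + 1 with hP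
  have hP1 : P 1 := ⟨le_refl _, by
    have : G.Adj (f 1) (f 0) := (hadj 0 hm).symm
    rw [SimpleGraph.dist_eq_one_iff_adj.mpr this]
    omega⟩
  set i := Nat.findGreatest P m with hi
  have him : i ≤ m := Nat.findGreatest_le m
  have hPi : P i := Nat.findGreatest_spec (P := P) hm hP1
  obtain ⟨hi1, hid⟩ := hPi
  have hne : ∀ j, 0 < j → j ≤ m → f 0 ≠ f j := fun j hj hjm h => by
    have := inj (Nat.zero_le _) hjm h
    omega
  have hfront := front (i - 1) (by omega)
  rcases Nat.lt_or_ge (G.dist (f i) (f 0)) (m - i + 1) with hlt | hge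
  · -- skip case
    have hpos : 0 < G.dist (f i) (f 0) := hG.pos_dist_of_ne (hne i (by omega) him).symm
    have him' : i < m := by omega
    have hnP : ¬ P (i + 1) :=
      Nat.findGreatest_is_greatest (P := P) (n := m) (show Nat.findGreatest P m < i + 1 from
        Nat.lt_succ_self _) (by omega)
    have hbig : m - (i + 1) + 1 < G.dist (f (i + 1)) (f 0) := by
      by_contra hc
      exact hnP ⟨by omega, by omega⟩
    have htri : G.dist (f (i + 1)) (f 0) ≤ G.dist (f (i + 1)) (f i) + G.dist (f i) (f 0) :=
      hG.dist_triangle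
    have hone : G.dist (f (i + 1)) (f i) = 1 :=
      SimpleGraph.dist_eq_one_iff_adj.mpr (hadj i him').symm
    have hd : G.dist (f (i + 1)) (f 0) = m - i + 1 := by omega
    have c1 : Col G {f i} (f (i + 1)) := col_single (hadj i him')
    have c2 : Col G ((Ioc (i + 1) m).image f) (f (i + 1)) := shift (i + 1) (by omega) (by omega)
    have hdis : Disjoint {f i} ((Ioc (i + 1) m).image f) := by
      rw [disjoint_singleton_left, mem_image]
      rintro ⟨j, hj, hfj⟩
      rw [mem_Ioc] at hj
      have := inj hj.2 him hfj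
      omega
    have c3 := col_union c1 c2 hdis
    have c4 : Col G (insert (f (i + 1)) ({f i} ∪ (Ioc (i + 1) m).image f)) (f 0) := by
      refine col_jump c3 (hne (i + 1) (by omega) (by omega)) ?_ ?_
      · rw [mem_union, mem_singleton, mem_image]
        rintro (h | ⟨j, hj, hfj⟩)
        · exact hne i (by omega) him h
        · rw [mem_Ioc] at hj
          exact hne j (by omega) hj.2 hfj.symm
      · rw [card_union_of_disjoint hdis, card_singleton, cardI _ _ le_rfl, hd]
        omega
    have c5 := col_union hfront c4 (by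
      rw [disjoint_left]
      intro v hv hv'
      rw [mem_image] at hv
      obtain ⟨j, hj, rfl⟩ := hv
      rw [mem_Ioc] at hj
      rw [mem_insert, mem_union, mem_singleton, mem_image] at hv'
      rcases hv' with h | h | ⟨l, hl, h⟩
      · have := inj (by omega) (by omega) h; omega
      · have := inj (by omega) (by omega) h; omega
      · rw [mem_Ioc] at hl
        have := inj hl.2 (by omega) h; omega)
    convert c5 using 1
    ext v
    simp only [mem_image, mem_union, mem_insert, mem_singleton, mem_Ioc]
    constructor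
    · rintro ⟨j, ⟨h1, h2⟩, rfl⟩
      rcases Nat.lt_trichotomy j i with h | h | h
      · exact Or.inl ⟨j, ⟨h1, by omega⟩, rfl⟩
      · exact Or.inr (Or.inr (Or.inl (by rw [h])))
      · rcases Nat.lt_or_ge (i + 1) j with h' | h'
        · exact Or.inr (Or.inr (Or.inr ⟨j, ⟨h', h2⟩, rfl⟩))
        · have : j = i + 1 := by omega
          exact Or.inr (Or.inl (by rw [this]))
    · rintro (⟨j, ⟨h1, h2⟩, rfl⟩ | rfl | rfl | ⟨j, ⟨h1, h2⟩, rfl⟩)
      · exact ⟨j, ⟨h1, by omega⟩, rfl⟩
      · exact ⟨i + 1, ⟨by omega, by omega⟩, rfl⟩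
      · exact ⟨i, ⟨by omega, by omega⟩, rfl⟩
      · exact ⟨j, ⟨by omega, h2⟩, rfl⟩
  · -- exact case
    have hd : G.dist (f i) (f 0) = m - i + 1 := by omega
    have c2 : Col G ((Ioc i m).image f) (f i) := shift i (by omega) him
    have c4 : Col G (insert (f i) ((Ioc i m).image f)) (f 0) := by
      refine col_jump c2 (hne i (by omega) him) ?_ ?_
      · rw [mem_image]
        rintro ⟨j, hj, hfj⟩
        rw [mem_Ioc] at hj
        exact hne j (by omega) hj.2 hfj.symm
      · rw [cardI _ _ le_rfl, hd]
    have c5 := col_union hfront c4 (by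
      rw [disjoint_left]
      intro v hv hv'
      rw [mem_image] at hv
      obtain ⟨j, hj, rfl⟩ := hv
      rw [mem_Ioc] at hj
      rw [mem_insert, mem_image] at hv'
      rcases hv' with h | ⟨l, hl, h⟩
      · have := inj (by omega) (by omega) h; omega
      · rw [mem_Ioc] at hl
        have := inj hl.2 (by omega) h; omega)
    convert c5 using 1
    ext v
    simp only [mem_image, mem_union, mem_insert, mem_Ioc]
    constructor
    · rintro ⟨j, ⟨h1, h2⟩, rfl⟩
      rcases Nat.lt_trichotomy j i with h | h | h
      · exact Or.inl ⟨j, ⟨h1, by omega⟩, rfl⟩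
      · exact Or.inr (Or.inl (by rw [h]))
      · exact Or.inr (Or.inr ⟨j, ⟨h, h2⟩, rfl⟩)
    · rintro (⟨j, ⟨h1, h2⟩, rfl⟩ | rfl | ⟨j, ⟨h1, h2⟩, rfl⟩)
      · exact ⟨j, ⟨h1, by omega⟩, rfl⟩
      · exact ⟨i, ⟨by omega, by omega⟩, rfl⟩
      · exact ⟨j, ⟨by omega, h2⟩, rfl⟩

end collect

/-! ### A clique with pendant vertices and a tail -/

section system

variable {V : Type} [DecidableEq V] [Fintype V] {G : SimpleGraph V}

/-- `x 0, ..., x C` is a clique, `x C, ..., x (C + L)` is a tail, the vertices of `Q` are pendant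
at `x 0`, and all distances to the tail are as expected. -/
structure Sys (G : SimpleGraph V) (x : ℕ → V) (Q : Finset V) (C L K : ℕ) : Prop where
  conn : G.Connected
  inj : ∀ i j, i ≤ C + L → j ≤ C + L → x i = x j → i = j
  adj : ∀ i < C + L, G.Adj (x i) (x (i + 1))
  clq : ∀ i j, i ≤ C → j ≤ C → i ≠ j → G.Adj (x i) (x j)
  Cpos : 1 ≤ C
  dist0 : ∀ i < C, ∀ j ≤ L, G.dist (x i) (x (C + j)) = j + 1
  distT : ∀ i j, i ≤ j → j ≤ L → G.dist (x (C + i)) (x (C + j)) = j - i
  Qcard : Q.card = K
  Qx : ∀ i ≤ C + L, x i ∉ Q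
  Qadj : ∀ q ∈ Q, G.Adj q (x 0)
  Qdist : ∀ q ∈ Q, ∀ j ≤ L, G.dist q (x (C + j)) = j + 2
  Qsp : ∀ q ∈ Q, ∀ i, 1 ≤ i → i < C → G.dist q (x i) = 2
  all : ∀ v, v ∈ Q ∨ ∃ i ≤ C + L, x i = v

variable {x : ℕ → V} {Q : Finset V} {C L K : ℕ}

/-- set of pendant vertices `A` together with path vertices with index in `I` -/
def W (x : ℕ → V) (A : Finset V) (I : Finset ℕ) : Finset V := A ∪ I.image x

lemma W_mem_x (S : Sys G x Q C L K) {A : Finset V} {I : Finset ℕ} (hA : A ⊆ Q)
    (hI : ∀ i ∈ I, i ≤ C + L) {m : ℕ} (hm : m ≤ C + L) : x m ∈ W x A I ↔ m ∈ I := by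
  unfold W
  rw [mem_union, mem_image]
  constructor
  · rintro (h | ⟨i, hi, h⟩)
    · exact absurd (hA h) (S.Qx m hm)
    · rwa [S.inj i m (hI i hi) hm h] at hi
  · intro h
    exact Or.inr ⟨m, h, rfl⟩

lemma W_mem_q (S : Sys G x Q C L K) {A : Finset V} {I : Finset ℕ}
    (hI : ∀ i ∈ I, i ≤ C + L) {q : V} (hq : q ∈ Q) : q ∈ W x A I ↔ q ∈ A := by
  unfold W
  rw [mem_union, mem_image]
  constructor
  · rintro (h | ⟨i, hi, h⟩)
    · exact h
    · exact absurd (h ▸ hq) (S.Qx i (hI i hi))
  · intro h
    exact Or.inl h

lemma W_card (S : Sys G x Q C L K) {A : Finset V} {I : Finset ℕ} (hA : A ⊆ Q)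
    (hI : ∀ i ∈ I, i ≤ C + L) : (W x A I).card = A.card + I.card := by
  unfold W
  rw [card_union_of_disjoint, card_image_of_injOn]
  · intro i hi j hj h
    exact S.inj i j (hI i hi) (hI j hj) h
  · rw [disjoint_left]
    intro v hv hv'
    rw [mem_image] at hv'
    obtain ⟨i, hi, rfl⟩ := hv'
    exact S.Qx i (hI i hi) (hA hv)

lemma W_union (S : Sys G x Q C L K) {A B : Finset V} {I J : Finset ℕ} {t : V} (hA : A ⊆ Q)
    (hB : B ⊆ Q) (hI : ∀ i ∈ I, i ≤ C + L) (hJ : ∀ i ∈ J, i ≤ C + L) (hAB : Disjoint A B)
    (hIJ : ∀ i ∈ I, i ∉ J) (h1 : Col G (W x A I) t) (h2 : Col G (W x B J) t) :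
    Col G (W x (A ∪ B) (I ∪ J)) t := by
  have e : W x (A ∪ B) (I ∪ J) = W x A I ∪ W x B J := by
    unfold W
    rw [image_union]
    ext v
    simp only [mem_union]
    tauto
  rw [e]
  refine col_union h1 h2 ?_
  rw [disjoint_left]
  intro v hv hv'
  unfold W at hv
  rw [mem_union, mem_image] at hv
  rcases hv with h | ⟨i, hi, rfl⟩
  · rw [W_mem_q S hJ (hA h)] at hv'
    exact (disjoint_left.mp hAB h) hv'
  · rw [W_mem_x S hB hJ (hI i hi)] at hv'
    exact hIJ i hi hv'

lemma W_jump (S : Sys G x Q C L K) {A : Finset V} {I : Finset ℕ} {t : V} {m : ℕ} (hA : A ⊆ Q)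
    (hI : ∀ i ∈ I, i ≤ C + L) (hm : m ≤ C + L) (h : Col G (W x A I) (x m)) (ht : t ≠ x m)
    (htW : t ∉ W x A I) (hd : G.dist (x m) t = A.card + I.card + 1) :
    Col G (W x A (insert m I)) t := by
  have e : W x A (insert m I) = insert (x m) (W x A I) := by
    unfold W
    rw [image_insert]
    ext v
    simp only [mem_union, mem_insert]
    tauto
  rw [e]
  exact col_jump h ht htW (by rw [W_card S hA hI, hd])

/-- path to the right -/
lemma W_right (S : Sys G x Q C L K) (a b : ℕ) (hb : b ≤ C + L + 1) (ha : a ≤ C + L) :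
    Col G (W x ∅ (Ico (a + 1) b)) (x a) := by
  have h := col_path (G := G) S.conn (b - 1 - a) (fun j => x (a + j))
    (fun i hi => by
      have := S.adj (a + i) (by omega)
      rwa [Nat.add_assoc] at this)
    (fun i hi j hj h => by
      simp only [Set.mem_Iic] at hi hj
      have := S.inj (a + i) (a + j) (by omega) (by omega) h
      omega)
  have e : (Ioc 0 (b - 1 - a)).image (fun j => x (a + j)) = W x ∅ (Ico (a + 1) b) := by
    ext v
    simp only [W, mem_image, mem_Ioc, mem_Ico, mem_union, notMem_empty, false_or]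
    constructor
    · rintro ⟨j, ⟨h1, h2⟩, rfl⟩
      exact ⟨a + j, ⟨by omega, by omega⟩, rfl⟩
    · rintro ⟨j, ⟨h1, h2⟩, rfl⟩
      exact ⟨j - a, ⟨by omega, by omega⟩, by rw [Nat.add_sub_cancel' (by omega)]⟩
  rw [e] at h
  simpa using h

/-- path to the left -/
lemma W_left (S : Sys G x Q C L K) (a b : ℕ) (hab : a ≤ b) (hb : b ≤ C + L) :
    Col G (W x ∅ (Ico a b)) (x b) := by
  have h := col_path (G := G) S.conn (b - a) (fun j => x (b - j))
    (fun i hi => by
      have := S.adj (b - (i + 1)) (by omega)
      rw [show b - (i + 1) + 1 = b - i by omega] at this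
      exact this.symm)
    (fun i hi j hj h => by
      simp only [Set.mem_Iic] at hi hj
      have := S.inj (b - i) (b - j) (by omega) (by omega) h
      omega)
  have e : (Ioc 0 (b - a)).image (fun j => x (b - j)) = W x ∅ (Ico a b) := by
    ext v
    simp only [W, mem_image, mem_Ioc, mem_Ico, mem_union, notMem_empty, false_or]
    constructor
    · rintro ⟨j, ⟨h1, h2⟩, rfl⟩
      exact ⟨b - j, ⟨by omega, by omega⟩, rfl⟩
    · rintro ⟨j, ⟨h1, h2⟩, rfl⟩
      exact ⟨b - j, ⟨by omega, by omega⟩, by rw [show b - (b - j) = j by omega]⟩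
  rw [e] at h
  simpa using h

/-- a whole segment is collected on its vertex `m` and jumps to `t` -/
lemma W_seg (S : Sys G x Q C L K) (a m b : ℕ) (t : V) (ham : a ≤ m) (hmb : m < b)
    (hb : b ≤ C + L + 1) (ht : t ∉ W x ∅ (Ico a b)) (hd : G.dist (x m) t = b - a) :
    Col G (W x ∅ (Ico a b)) t := by
  have h1 := W_left S a m ham (by omega)
  have h2 := W_right S m b hb (by omega)
  have h3 := W_union S (empty_subset _) (empty_subset _) (I := Ico a m) (J := Ico (m + 1) b)
    (by intro i hi; rw [mem_Ico] at hi; omega) (by intro i hi; rw [mem_Ico] at hi; omega)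
    (disjoint_empty_left _) (by intro i hi; rw [mem_Ico] at hi ⊢; omega) h1 h2
  rw [union_empty] at h3
  have e : insert m (Ico a m ∪ Ico (m + 1) b) = Ico a b := by
    ext i; simp only [mem_insert, mem_union, mem_Ico]; omega
  have hsub : ∀ i ∈ Ico a m ∪ Ico (m + 1) b, i ≤ C + L := by
    intro i hi; simp only [mem_union, mem_Ico] at hi; omega
  have hsub' : ∀ i ∈ Ico a b, i ≤ C + L := by
    intro i hi; simp only [mem_Ico] at hi; omega
  have h4 := W_jump S (empty_subset _) hsub (m := m) (by omega) h3 (t := t) ?_ ?_ ?_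
  · rwa [e] at h4
  · rintro rfl
    exact ht ((W_mem_x S (empty_subset _) hsub' (by omega)).mpr (by rw [mem_Ico]; omega))
  · intro h
    apply ht
    unfold W at h ⊢
    rw [← e, image_insert]
    simp only [mem_union, mem_insert] at h ⊢
    tauto
  · rw [hd, card_empty, card_union_of_disjoint, Nat.card_Ico, Nat.card_Ico]
    · omega
    · rw [disjoint_left]; intro i hi; rw [mem_Ico] at hi ⊢; omega

lemma W_finish_x (S : Sys G x Q C L K) {τ : ℕ} (hτ : τ ≤ C + L) {A : Finset V} {I : Finset ℕ}
    (hA : A = Q) (hI : ∀ i, i ∈ I ↔ i ≤ C + L ∧ i ≠ τ) (h : Col G (W x A I) (x τ)) :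
    Col G (univ.erase (x τ)) (x τ) := by
  have e : univ.erase (x τ) = W x A I := by
    subst hA
    ext v
    rw [mem_erase]
    constructor
    · rintro ⟨hv, -⟩
      rcases S.all v with h | ⟨i, hi, rfl⟩
      · exact mem_union_left _ h
      · refine mem_union_right _ (mem_image_of_mem _ ?_)
        rw [hI]
        exact ⟨hi, fun h => hv (by rw [h])⟩
    · intro hv
      refine ⟨?_, mem_univ _⟩
      rintro rfl
      rw [W_mem_x S (subset_refl _) (fun i hi => ((hI i).mp hi).1) hτ, hI] at hv
      exact hv.2 rfl
  rw [e]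
  exact h

lemma W_finish_q (S : Sys G x Q C L K) {q : V} (hq : q ∈ Q) {A : Finset V} {I : Finset ℕ}
    (hA : A = Q.erase q) (hI : ∀ i, i ∈ I ↔ i ≤ C + L) (h : Col G (W x A I) q) :
    Col G (univ.erase q) q := by
  have e : univ.erase q = W x A I := by
    subst hA
    ext v
    rw [mem_erase]
    constructor
    · rintro ⟨hv, -⟩
      rcases S.all v with h | ⟨i, hi, rfl⟩
      · exact mem_union_left _ (mem_erase.mpr ⟨hv, h⟩)
      · refine mem_union_right _ (mem_image_of_mem _ ?_)
        rw [hI]
        exact hi
    · intro hv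
      refine ⟨?_, mem_univ _⟩
      rintro rfl
      rw [W_mem_q S (fun i hi => ((hI i).mp hi)) hq] at hv
      exact (mem_erase.mp hv).1 rfl
  rw [e]
  exact h

lemma W_pend (S : Sys G x Q C L K) {A : Finset V} (hA : A ⊆ Q) : Col G (W x A ∅) (x 0) := by
  have : W x A ∅ = A := by simp [W]
  rw [this]
  exact col_adj fun y hy => S.Qadj y (hA hy)

end system

/-! ### The five kinds of targets -/

section targets

variable {V : Type} [DecidableEq V] [Fintype V] {G : SimpleGraph V} {x : ℕ → V} {Q : Finset V}
  {C L K : ℕ}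

lemma case_zero (S : Sys G x Q C L K) : Col G (univ.erase (x 0)) (x 0) := by
  have h1 := W_pend S (subset_refl Q)
  have h2 := W_right S 0 (C + L + 1) le_rfl (by omega)
  have h3 := W_union S (subset_refl Q) (empty_subset _) (by intro i hi; simp only [mem_union, mem_insert, mem_Ico, mem_singleton, mem_erase, notMem_empty, false_or, or_false] at hi <;> omega) (by intro i hi; simp only [mem_union, mem_insert, mem_Ico, mem_singleton, mem_erase, notMem_empty, false_or, or_false] at hi <;> omega) (by simp) (by intro i hi hj; simp only [mem_union, mem_insert, mem_Ico, mem_singleton, mem_erase, notMem_empty, false_or, or_false] at hi hj <;> omega) h1 h2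
  exact W_finish_x S (by omega) (by simp) (by intro i; simp only [mem_union, mem_insert, mem_Ico, mem_erase, notMem_empty, false_or, or_false]; omega) h3

lemma case_far (S : Sys G x Q C L K) {i : ℕ} (hK : K ≤ i) (hi : i ≤ L) :
    Col G (univ.erase (x (C + i))) (x (C + i)) := by
  have hC := S.Cpos
  have h1 := W_pend S (subset_refl Q)
  have h2 := W_right S 0 (i - K + 1) (by omega) (by omega)
  have h3 := W_union S (subset_refl Q) (empty_subset _) (by intro i hi; simp only [mem_union, mem_insert, mem_Ico, mem_singleton, mem_erase, notMem_empty, false_or, or_false] at hi <;> omega) (by intro i hi; simp only [mem_union, mem_insert, mem_Ico, mem_singleton, mem_erase, notMem_empty, false_or, or_false] at hi <;> omega) (by simp) (by intro i hi hj; simp only [mem_union, mem_insert, mem_Ico, mem_singleton, mem_erase, notMem_empty, false_or, or_false] at hi hj <;> omega) h1 h2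
  simp only [union_empty, empty_union] at h3
  have h4 := W_jump S (subset_refl Q) (by intro i hi; simp only [mem_union, mem_insert, mem_Ico, mem_singleton, mem_erase, notMem_empty, false_or, or_false] at hi <;> omega) (m := 0) (by omega) h3 (t := x (C + i))
    (fun h => by have := S.inj _ _ (by omega) (by omega) h; omega)
    (by rw [W_mem_x S (subset_refl Q) (by intro i hi; simp only [mem_union, mem_insert, mem_Ico, mem_singleton, mem_erase, notMem_empty, false_or, or_false] at hi <;> omega) (by omega)]; simp only [mem_union, mem_insert, mem_Ico, mem_erase, notMem_empty, false_or, or_false]; omega)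
    (by rw [S.dist0 0 (by omega) i hi, S.Qcard, Nat.card_Ico]; omega)
  have h5 := W_left S (i - K + 1) (C + i) (by omega) (by omega)
  have h6 := W_right S (C + i) (C + L + 1) le_rfl (by omega)
  have h7 := W_union S (subset_refl Q) (empty_subset _) (by intro i hi; simp only [mem_union, mem_insert, mem_Ico, mem_singleton, mem_erase, notMem_empty, false_or, or_false] at hi <;> omega) (by intro i hi; simp only [mem_union, mem_insert, mem_Ico, mem_singleton, mem_erase, notMem_empty, false_or, or_false] at hi <;> omega) (by simp) (by intro i hi hj; simp only [mem_union, mem_insert, mem_Ico, mem_singleton, mem_erase, notMem_empty, false_or, or_false] at hi hj <;> omega) h4 h5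
  have h8 := W_union S (by simp) (empty_subset _) (by intro i hi; simp only [mem_union, mem_insert, mem_Ico, mem_singleton, mem_erase, notMem_empty, false_or, or_false] at hi <;> omega) (by intro i hi; simp only [mem_union, mem_insert, mem_Ico, mem_singleton, mem_erase, notMem_empty, false_or, or_false] at hi <;> omega) (by simp) (by intro i hi hj; simp only [mem_union, mem_insert, mem_Ico, mem_singleton, mem_erase, notMem_empty, false_or, or_false] at hi hj <;> omega) h7 h6
  exact W_finish_x S (by omega) (by simp)
    (by intro j; simp only [mem_union, mem_insert, mem_Ico, mem_erase, notMem_empty, false_or, or_false]; omega) h8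

/-- the pile of the pendant vertices, moved to `x (C + K)` -/
lemma pile_one (S : Sys G x Q C L K) (hL : K ≤ L) :
    Col G (W x Q (insert 0 ∅)) (x (C + K)) := by
  have hC := S.Cpos
  have h1 := W_pend S (subset_refl Q)
  exact W_jump S (subset_refl Q) (by intro i hi; simp only [mem_union, mem_insert, mem_Ico, mem_singleton, mem_erase, notMem_empty, false_or, or_false] at hi <;> omega) (m := 0) (by omega) h1 (t := x (C + K))
    (fun h => by have := S.inj _ _ (by omega) (by omega) h; omega)
    (by rw [W_mem_x S (subset_refl Q) (by intro i hi; simp only [mem_union, mem_insert, mem_Ico, mem_singleton, mem_erase, notMem_empty, false_or, or_false] at hi <;> omega) (by omega)]; simp)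
    (by rw [S.dist0 0 (by omega) K hL, S.Qcard]; simp)

lemma case_near (S : Sys G x Q C L K) {i : ℕ} (hK : i < K) (hL : 8 * K + 12 ≤ L) :
    Col G (univ.erase (x (C + i))) (x (C + i)) := by
  have hC := S.Cpos
  have h1 := pile_one S (by omega)
  have h2 := W_jump S (subset_refl Q) (by intro i hi; simp only [mem_union, mem_insert, mem_Ico, mem_singleton, mem_erase, notMem_empty, false_or, or_false] at hi <;> omega) (m := C + K) (by omega) h1 (t := x (C + (2 * K + 2)))
    (fun h => by have := S.inj _ _ (by omega) (by omega) h; omega)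
    (by rw [W_mem_x S (subset_refl Q) (by intro i hi; simp only [mem_union, mem_insert, mem_Ico, mem_singleton, mem_erase, notMem_empty, false_or, or_false] at hi <;> omega) (by omega)]; simp only [mem_union, mem_insert, mem_Ico, mem_erase, notMem_empty, false_or, or_false]; omega)
    (by rw [S.distT _ _ (by omega) (by omega), S.Qcard]; simp; omega)
  have h3 := W_right S (C + (2 * K + 2)) (C + (2 * K + 2) + 1 + (K - 1 - i)) (by omega) (by omega)
  have h4 := W_union S (subset_refl Q) (empty_subset _) (by intro i hi; simp only [mem_union, mem_insert, mem_Ico, mem_singleton, mem_erase, notMem_empty, false_or, or_false] at hi <;> omega) (by intro i hi; simp only [mem_union, mem_insert, mem_Ico, mem_singleton, mem_erase, notMem_empty, false_or, or_false] at hi <;> omega) (by simp) (by intro i hi hj; simp only [mem_union, mem_insert, mem_Ico, mem_singleton, mem_erase, notMem_empty, false_or, or_false] at hi hj <;> omega) h2 h3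
  simp only [union_empty] at h4
  have h5 := W_jump S (subset_refl Q) (by intro i hi; simp only [mem_union, mem_insert, mem_Ico, mem_singleton, mem_erase, notMem_empty, false_or, or_false] at hi <;> omega) (m := C + (2 * K + 2)) (by omega) h4 (t := x (C + i))
    (fun h => by have := S.inj _ _ (by omega) (by omega) h; omega)
    (by rw [W_mem_x S (subset_refl Q) (by intro i hi; simp only [mem_union, mem_insert, mem_Ico, mem_singleton, mem_erase, notMem_empty, false_or, or_false] at hi <;> omega) (by omega)]
        simp only [mem_union, mem_insert, mem_Ico, mem_erase, notMem_empty, false_or, or_false]; omega)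
    (by
      rw [SimpleGraph.dist_comm, S.distT _ _ (by omega) (by omega), S.Qcard,
        card_union_of_disjoint, Nat.card_Ico, card_insert_of_notMem, card_insert_of_notMem,
        card_empty]
      · omega
      · simp
      · simp only [mem_union, mem_insert, mem_Ico, mem_erase, notMem_empty, false_or, or_false]; omega
      · rw [disjoint_left]; intro j hj; simp only [mem_union, mem_insert, mem_Ico, mem_erase, notMem_empty, false_or, or_false] at hj ⊢; omega)
  have h6 := W_seg S (C + K + 1) (C + (i + K + 1)) (C + 2 * K + 2) (x (C + i)) (by omega)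
    (by omega) (by omega)
    (by rw [W_mem_x S (empty_subset _) (by intro i hi; simp only [mem_union, mem_insert, mem_Ico, mem_singleton, mem_erase, notMem_empty, false_or, or_false] at hi <;> omega) (by omega)]; simp only [mem_union, mem_insert, mem_Ico, mem_erase, notMem_empty, false_or, or_false]; omega)
    (by rw [SimpleGraph.dist_comm, S.distT _ _ (by omega) (by omega)]; omega)
  have h7 := W_seg S (C + (2 * K + 2) + 1 + (K - 1 - i))
    (C + (i + (L - 2 * K - 2 - (K - 1 - i)))) (C + L + 1) (x (C + i)) (by omega)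
    (by omega) (by omega)
    (by rw [W_mem_x S (empty_subset _) (by intro i hi; simp only [mem_union, mem_insert, mem_Ico, mem_singleton, mem_erase, notMem_empty, false_or, or_false] at hi <;> omega) (by omega)]; simp only [mem_union, mem_insert, mem_Ico, mem_erase, notMem_empty, false_or, or_false]; omega)
    (by rw [SimpleGraph.dist_comm, S.distT _ _ (by omega) (by omega)]; omega)
  have h8 := W_left S 1 (C + i) (by omega) (by omega)
  have h9 := W_right S (C + i) (C + K) (by omega) (by omega)
  have g1 := W_union S (subset_refl Q) (empty_subset _) (by intro i hi; simp only [mem_union, mem_insert, mem_Ico, mem_singleton, mem_erase, notMem_empty, false_or, or_false] at hi <;> omega) (by intro i hi; simp only [mem_union, mem_insert, mem_Ico, mem_singleton, mem_erase, notMem_empty, false_or, or_false] at hi <;> omega) (by simp) (by intro i hi hj; simp only [mem_union, mem_insert, mem_Ico, mem_singleton, mem_erase, notMem_empty, false_or, or_false] at hi hj <;> omega) h5 h6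
  have g2 := W_union S (by simp) (empty_subset _) (by intro i hi; simp only [mem_union, mem_insert, mem_Ico, mem_singleton, mem_erase, notMem_empty, false_or, or_false] at hi <;> omega) (by intro i hi; simp only [mem_union, mem_insert, mem_Ico, mem_singleton, mem_erase, notMem_empty, false_or, or_false] at hi <;> omega) (by simp) (by intro i hi hj; simp only [mem_union, mem_insert, mem_Ico, mem_singleton, mem_erase, notMem_empty, false_or, or_false] at hi hj <;> omega) g1 h7
  have g3 := W_union S (by simp) (empty_subset _) (by intro i hi; simp only [mem_union, mem_insert, mem_Ico, mem_singleton, mem_erase, notMem_empty, false_or, or_false] at hi <;> omega) (by intro i hi; simp only [mem_union, mem_insert, mem_Ico, mem_singleton, mem_erase, notMem_empty, false_or, or_false] at hi <;> omega) (by simp) (by intro i hi hj; simp only [mem_union, mem_insert, mem_Ico, mem_singleton, mem_erase, notMem_empty, false_or, or_false] at hi hj <;> omega) g2 h8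
  have g4 := W_union S (by simp) (empty_subset _) (by intro i hi; simp only [mem_union, mem_insert, mem_Ico, mem_singleton, mem_erase, notMem_empty, false_or, or_false] at hi <;> omega) (by intro i hi; simp only [mem_union, mem_insert, mem_Ico, mem_singleton, mem_erase, notMem_empty, false_or, or_false] at hi <;> omega) (by simp) (by intro i hi hj; simp only [mem_union, mem_insert, mem_Ico, mem_singleton, mem_erase, notMem_empty, false_or, or_false] at hi hj <;> omega) g3 h9
  exact W_finish_x S (by omega) (by simp)
    (by intro j; simp only [mem_union, mem_insert, mem_Ico, mem_erase, notMem_empty, false_or, or_false]; omega) g4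

lemma case_spare (S : Sys G x Q C L K) {τ : ℕ} (h0 : 1 ≤ τ) (hτ : τ < C) (hK : 3 ≤ K)
    (hL : 8 * K + 12 ≤ L) : Col G (univ.erase (x τ)) (x τ) := by
  have hC := S.Cpos
  have h1 := pile_one S (by omega)
  have h1' := W_left S (C + K - 1) (C + K) (by omega) (by omega)
  have h1'' := W_union S (subset_refl Q) (empty_subset _) (by intro i hi; simp only [mem_union, mem_insert, mem_Ico, mem_singleton, mem_erase, notMem_empty, false_or, or_false] at hi <;> omega) (by intro i hi; simp only [mem_union, mem_insert, mem_Ico, mem_singleton, mem_erase, notMem_empty, false_or, or_false] at hi <;> omega) (by simp) (by intro i hi hj; simp only [mem_union, mem_insert, mem_Ico, mem_singleton, mem_erase, notMem_empty, false_or, or_false] at hi hj <;> omega) h1 h1'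
  simp only [union_empty] at h1''
  have h2 := W_jump S (subset_refl Q) (by intro i hi; simp only [mem_union, mem_insert, mem_Ico, mem_singleton, mem_erase, notMem_empty, false_or, or_false] at hi <;> omega) (m := C + K) (by omega) h1'' (t := x (C + (2 * K + 3)))
    (fun h => by have := S.inj _ _ (by omega) (by omega) h; omega)
    (by rw [W_mem_x S (subset_refl Q) (by intro i hi; simp only [mem_union, mem_insert, mem_Ico, mem_singleton, mem_erase, notMem_empty, false_or, or_false] at hi <;> omega) (by omega)]
        simp only [mem_union, mem_insert, mem_Ico, mem_erase, notMem_empty, false_or, or_false]; omega)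
    (by
      rw [S.distT _ _ (by omega) (by omega), S.Qcard, card_union_of_disjoint, Nat.card_Ico,
        card_insert_of_notMem, card_empty]
      · omega
      · simp
      · rw [disjoint_left]; intro j hj; simp only [mem_union, mem_insert, mem_Ico, mem_erase, notMem_empty, false_or, or_false] at hj ⊢; omega)
  have h3 := W_right S (C + (2 * K + 3)) (C + (2 * K + 3) + 1 + K) (by omega) (by omega)
  have h4 := W_union S (subset_refl Q) (empty_subset _) (by intro i hi; simp only [mem_union, mem_insert, mem_Ico, mem_singleton, mem_erase, notMem_empty, false_or, or_false] at hi <;> omega) (by intro i hi; simp only [mem_union, mem_insert, mem_Ico, mem_singleton, mem_erase, notMem_empty, false_or, or_false] at hi <;> omega) (by simp) (by intro i hi hj; simp only [mem_union, mem_insert, mem_Ico, mem_singleton, mem_erase, notMem_empty, false_or, or_false] at hi hj <;> omega) h2 h3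
  simp only [union_empty] at h4
  have h5 := W_jump S (subset_refl Q) (by intro i hi; simp only [mem_union, mem_insert, mem_Ico, mem_singleton, mem_erase, notMem_empty, false_or, or_false] at hi <;> omega) (m := C + (2 * K + 3)) (by omega) h4 (t := x τ)
    (fun h => by have := S.inj _ _ (by omega) (by omega) h; omega)
    (by rw [W_mem_x S (subset_refl Q) (by intro i hi; simp only [mem_union, mem_insert, mem_Ico, mem_singleton, mem_erase, notMem_empty, false_or, or_false] at hi <;> omega) (by omega)]
        simp only [mem_union, mem_insert, mem_Ico, mem_erase, notMem_empty, false_or, or_false]; omega)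
    (by
      rw [SimpleGraph.dist_comm, S.dist0 _ hτ _ (by omega), S.Qcard,
        card_union_of_disjoint, Nat.card_Ico, card_insert_of_notMem, card_union_of_disjoint,
        Nat.card_Ico, card_insert_of_notMem, card_empty]
      · omega
      · simp
      · rw [disjoint_left]; intro j hj; simp only [mem_union, mem_insert, mem_Ico, mem_erase, notMem_empty, false_or, or_false] at hj ⊢; omega
      · simp only [mem_union, mem_insert, mem_Ico, mem_erase, notMem_empty, false_or, or_false]; omega
      · rw [disjoint_left]; intro j hj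
        simp only [mem_union, mem_insert, mem_Ico, mem_erase, notMem_empty, false_or, or_false] at hj ⊢; omega)
  have h6 := W_seg S (C + K + 1) (C + (K + 1)) (C + 2 * K + 3) (x τ) (by omega)
    (by omega) (by omega)
    (by rw [W_mem_x S (empty_subset _) (by intro i hi; simp only [mem_union, mem_insert, mem_Ico, mem_singleton, mem_erase, notMem_empty, false_or, or_false] at hi <;> omega) (by omega)]; simp only [mem_union, mem_insert, mem_Ico, mem_erase, notMem_empty, false_or, or_false]; omega)
    (by rw [SimpleGraph.dist_comm, S.dist0 _ hτ _ (by omega)]; omega)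
  have h7 := W_seg S (C + (2 * K + 3) + 1 + K)
    (C + (L - 3 * K - 4)) (C + L + 1) (x τ) (by omega)
    (by omega) (by omega)
    (by rw [W_mem_x S (empty_subset _) (by intro i hi; simp only [mem_union, mem_insert, mem_Ico, mem_singleton, mem_erase, notMem_empty, false_or, or_false] at hi <;> omega) (by omega)]; simp only [mem_union, mem_insert, mem_Ico, mem_erase, notMem_empty, false_or, or_false]; omega)
    (by rw [SimpleGraph.dist_comm, S.dist0 _ hτ _ (by omega)]; omega)
  have h8 := W_seg S C (C + (K - 2)) (C + K - 1) (x τ) (by omega)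
    (by omega) (by omega)
    (by rw [W_mem_x S (empty_subset _) (by intro i hi; simp only [mem_union, mem_insert, mem_Ico, mem_singleton, mem_erase, notMem_empty, false_or, or_false] at hi <;> omega) (by omega)]; simp only [mem_union, mem_insert, mem_Ico, mem_erase, notMem_empty, false_or, or_false]; omega)
    (by rw [SimpleGraph.dist_comm, S.dist0 _ hτ _ (by omega)]; omega)
  have h9 : Col G (W x ∅ ((Ico 1 C).erase τ)) (x τ) := by
    refine col_adj fun y hy => ?_
    unfold W at hy
    rw [empty_union, mem_image] at hy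
    obtain ⟨j, hj, rfl⟩ := hy
    rw [mem_erase, mem_Ico] at hj
    exact S.clq j τ (by omega) (by omega) hj.1
  have g1 := W_union S (subset_refl Q) (empty_subset _) (by intro i hi; simp only [mem_union, mem_insert, mem_Ico, mem_singleton, mem_erase, notMem_empty, false_or, or_false] at hi <;> omega) (by intro i hi; simp only [mem_union, mem_insert, mem_Ico, mem_singleton, mem_erase, notMem_empty, false_or, or_false] at hi <;> omega) (by simp) (by intro i hi hj; simp only [mem_union, mem_insert, mem_Ico, mem_singleton, mem_erase, notMem_empty, false_or, or_false] at hi hj <;> omega) h5 h6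
  have g2 := W_union S (by simp) (empty_subset _) (by intro i hi; simp only [mem_union, mem_insert, mem_Ico, mem_singleton, mem_erase, notMem_empty, false_or, or_false] at hi <;> omega) (by intro i hi; simp only [mem_union, mem_insert, mem_Ico, mem_singleton, mem_erase, notMem_empty, false_or, or_false] at hi <;> omega) (by simp) (by intro i hi hj; simp only [mem_union, mem_insert, mem_Ico, mem_singleton, mem_erase, notMem_empty, false_or, or_false] at hi hj <;> omega) g1 h7
  have g3 := W_union S (by simp) (empty_subset _) (by intro i hi; simp only [mem_union, mem_insert, mem_Ico, mem_singleton, mem_erase, notMem_empty, false_or, or_false] at hi <;> omega) (by intro i hi; simp only [mem_union, mem_insert, mem_Ico, mem_singleton, mem_erase, notMem_empty, false_or, or_false] at hi <;> omega) (by simp) (by intro i hi hj; simp only [mem_union, mem_insert, mem_Ico, mem_singleton, mem_erase, notMem_empty, false_or, or_false] at hi hj <;> omega) g2 h8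
  have g4 := W_union S (by simp) (empty_subset _) (by intro i hi; simp only [mem_union, mem_insert, mem_Ico, mem_singleton, mem_erase, notMem_empty, false_or, or_false] at hi <;> omega) (by intro i hi; simp only [mem_union, mem_insert, mem_Ico, mem_singleton, mem_erase, notMem_empty, false_or, or_false] at hi <;> omega) (by simp) (by intro i hi hj; simp only [mem_union, mem_insert, mem_Ico, mem_singleton, mem_erase, notMem_empty, false_or, or_false] at hi hj <;> omega) g3 h9
  exact W_finish_x S (by omega) (by simp)
    (by intro j; simp only [mem_union, mem_insert, mem_Ico, mem_erase, notMem_empty, false_or, or_false]; omega) g4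

lemma pairs (S : Sys G x Q C L K) {q : V} (hq : q ∈ Q) (n : ℕ) (hn : 2 * n + 1 ≤ C) :
    Col G (W x ∅ (Ico 1 (2 * n + 1))) q := by
  induction n with
  | zero => simpa [W] using col_empty (G := G) q
  | succ n ih =>
    have h1 := ih (by omega)
    have h2 := W_seg S (2 * n + 1) (2 * n + 1) (2 * n + 3) q le_rfl (by omega) (by omega)
      (by rw [W_mem_q S (by intro i hi; simp only [mem_union, mem_insert, mem_Ico, mem_singleton, mem_erase, notMem_empty, false_or, or_false] at hi <;> omega) hq]; simp) (by
        rw [SimpleGraph.dist_comm, S.Qsp q hq _ (by omega) (by omega)]; omega)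
    have h3 := W_union S (empty_subset _) (empty_subset _) (by intro i hi; simp only [mem_union, mem_insert, mem_Ico, mem_singleton, mem_erase, notMem_empty, false_or, or_false] at hi <;> omega) (by intro i hi; simp only [mem_union, mem_insert, mem_Ico, mem_singleton, mem_erase, notMem_empty, false_or, or_false] at hi <;> omega) (by simp) (by intro i hi hj; simp only [mem_union, mem_insert, mem_Ico, mem_singleton, mem_erase, notMem_empty, false_or, or_false] at hi hj <;> omega) h1 h2
    have e : Ico 1 (2 * n + 1) ∪ Ico (2 * n + 1) (2 * n + 3) = Ico 1 (2 * (n + 1) + 1) := by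
      ext j; simp only [mem_union, mem_insert, mem_Ico, mem_erase, notMem_empty, false_or, or_false]; omega
    rw [e, union_empty] at h3
    exact h3

lemma case_pend (S : Sys G x Q C L K) {q : V} (hq : q ∈ Q) (hK : 3 ≤ K)
    (hL : 8 * K + 12 ≤ L) : Col G (univ.erase q) q := by
  have hC := S.Cpos
  have hcard : (Q.erase q).card = K - 1 := by rw [card_erase_of_mem hq, S.Qcard]
  have hsub : Q.erase q ⊆ Q := erase_subset _ _
  have h1 := W_pend S hsub
  have h2 := W_jump S hsub (by intro i hi; simp only [mem_union, mem_insert, mem_Ico, mem_singleton, mem_erase, notMem_empty, false_or, or_false] at hi <;> omega) (m := 0) (by omega) h1 (t := x (C + (K - 1)))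
    (fun h => by have := S.inj _ _ (by omega) (by omega) h; omega)
    (by rw [W_mem_x S hsub (by intro i hi; simp only [mem_union, mem_insert, mem_Ico, mem_singleton, mem_erase, notMem_empty, false_or, or_false] at hi <;> omega) (by omega)]; simp)
    (by rw [S.dist0 0 (by omega) _ (by omega), hcard]; simp)
  have h3 := W_jump S hsub (by intro i hi; simp only [mem_union, mem_insert, mem_Ico, mem_singleton, mem_erase, notMem_empty, false_or, or_false] at hi <;> omega) (m := C + (K - 1)) (by omega) h2 (t := q)
    (fun h => S.Qx _ (by omega) (h ▸ hq))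
    (by rw [W_mem_q S (by intro i hi; simp only [mem_union, mem_insert, mem_Ico, mem_singleton, mem_erase, notMem_empty, false_or, or_false] at hi <;> omega) hq]; simp)
    (by rw [SimpleGraph.dist_comm, S.Qdist q hq _ (by omega), hcard]; simp)
  have h4 := W_seg S (C + K) (C + (L - K - 1)) (C + L + 1) q (by omega) (by omega) (by omega)
    (by rw [W_mem_q S (by intro i hi; simp only [mem_union, mem_insert, mem_Ico, mem_singleton, mem_erase, notMem_empty, false_or, or_false] at hi <;> omega) hq]; simp)
    (by rw [SimpleGraph.dist_comm, S.Qdist q hq _ (by omega)]; omega)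
  have g1 := W_union S hsub (empty_subset _) (by intro i hi; simp only [mem_union, mem_insert, mem_Ico, mem_singleton, mem_erase, notMem_empty, false_or, or_false] at hi <;> omega) (by intro i hi; simp only [mem_union, mem_insert, mem_Ico, mem_singleton, mem_erase, notMem_empty, false_or, or_false] at hi <;> omega) (by simp) (by intro i hi hj; simp only [mem_union, mem_insert, mem_Ico, mem_singleton, mem_erase, notMem_empty, false_or, or_false] at hi hj <;> omega) h3 h4
  rcases Nat.even_or_odd' C with ⟨n, hn | hn⟩
  · -- `C = 2 n`: odd number of spare vertices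
    have h5 := pairs S hq (n - 1) (by omega)
    have h6 := W_seg S (C - 1) (C + (K - 2)) (C + K - 1) q (by omega) (by omega) (by omega)
      (by rw [W_mem_q S (by intro i hi; simp only [mem_union, mem_insert, mem_Ico, mem_singleton, mem_erase, notMem_empty, false_or, or_false] at hi <;> omega) hq]; simp)
      (by rw [SimpleGraph.dist_comm, S.Qdist q hq _ (by omega)]; omega)
    have g2 := W_union S (by simpa using hsub) (empty_subset _) (by intro i hi; simp only [mem_union, mem_insert, mem_Ico, mem_singleton, mem_erase, notMem_empty, false_or, or_false] at hi <;> omega) (by intro i hi; simp only [mem_union, mem_insert, mem_Ico, mem_singleton, mem_erase, notMem_empty, false_or, or_false] at hi <;> omega) (by simp) (by intro i hi hj; simp only [mem_union, mem_insert, mem_Ico, mem_singleton, mem_erase, notMem_empty, false_or, or_false] at hi hj <;> omega) g1 h5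
    have g3 := W_union S (by simpa using hsub) (empty_subset _) (by intro i hi; simp only [mem_union, mem_insert, mem_Ico, mem_singleton, mem_erase, notMem_empty, false_or, or_false] at hi <;> omega) (by intro i hi; simp only [mem_union, mem_insert, mem_Ico, mem_singleton, mem_erase, notMem_empty, false_or, or_false] at hi <;> omega) (by simp) (by intro i hi hj; simp only [mem_union, mem_insert, mem_Ico, mem_singleton, mem_erase, notMem_empty, false_or, or_false] at hi hj <;> omega) g2 h6
    exact W_finish_q S hq (by simp)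
      (by intro j; simp only [mem_union, mem_insert, mem_Ico, mem_erase, notMem_empty, false_or, or_false]; omega) g3
  · have h5 := pairs S hq n (by omega)
    have h6 := W_seg S C (C + (K - 3)) (C + K - 1) q (by omega) (by omega) (by omega)
      (by rw [W_mem_q S (by intro i hi; simp only [mem_union, mem_insert, mem_Ico, mem_singleton, mem_erase, notMem_empty, false_or, or_false] at hi <;> omega) hq]; simp)
      (by rw [SimpleGraph.dist_comm, S.Qdist q hq _ (by omega)]; omega)
    have g2 := W_union S (by simpa using hsub) (empty_subset _) (by intro i hi; simp only [mem_union, mem_insert, mem_Ico, mem_singleton, mem_erase, notMem_empty, false_or, or_false] at hi <;> omega) (by intro i hi; simp only [mem_union, mem_insert, mem_Ico, mem_singleton, mem_erase, notMem_empty, false_or, or_false] at hi <;> omega) (by simp) (by intro i hi hj; simp only [mem_union, mem_insert, mem_Ico, mem_singleton, mem_erase, notMem_empty, false_or, or_false] at hi hj <;> omega) g1 h5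
    have g3 := W_union S (by simpa using hsub) (empty_subset _) (by intro i hi; simp only [mem_union, mem_insert, mem_Ico, mem_singleton, mem_erase, notMem_empty, false_or, or_false] at hi <;> omega) (by intro i hi; simp only [mem_union, mem_insert, mem_Ico, mem_singleton, mem_erase, notMem_empty, false_or, or_false] at hi <;> omega) (by simp) (by intro i hi hj; simp only [mem_union, mem_insert, mem_Ico, mem_singleton, mem_erase, notMem_empty, false_or, or_false] at hi hj <;> omega) g2 h6
    exact W_finish_q S hq (by simp)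
      (by intro j; simp only [mem_union, mem_insert, mem_Ico, mem_erase, notMem_empty, false_or, or_false]; omega) g3

lemma sys_col (S : Sys G x Q C L K) (hK : 3 ≤ K) (hL : 8 * K + 12 ≤ L) (t : V) :
    Col G (univ.erase t) t := by
  rcases S.all t with h | ⟨i, hi, rfl⟩
  · exact case_pend S h hK hL
  · rcases Nat.eq_zero_or_pos i with rfl | h0
    · exact case_zero S
    · rcases Nat.lt_or_ge i C with hC | hC
      · exact case_spare S h0 hC hK hL
      · obtain ⟨j, rfl⟩ := Nat.exists_eq_add_of_le hC
        rcases Nat.lt_or_ge j K with h | h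
        · exact case_near S h hL
        · exact case_far S h (by omega)

lemma sys_stackable (S : Sys G x Q C L K) (hK : 3 ≤ K) (hL : 8 * K + 12 ≤ L) :
    Stackable G := by
  intro t
  have h := (sys_col S hK hL t).2 (fun _ => 1) (fun _ _ => rfl) le_rfl
  refine ⟨_, h, fun v hv => ?_⟩
  simp [hv]

end targets

/-! ### The graphs -/

/-- The graph on `{0, ..., n}`: `0` and `κ+1, ..., c` form a clique, `c, c+1, ..., n` is a path,
and `1, ..., κ` are pendant vertices adjacent to `0`. -/
def Gr (n κ c : ℕ) : SimpleGraph (Fin (n + 1)) :=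
  SimpleGraph.fromRel (fun a b => (a : ℕ) < b ∧
    (((a : ℕ) = 0 ∧ (b : ℕ) ≤ c) ∨ (κ < (a : ℕ) ∧ (b : ℕ) ≤ c) ∨
      (κ < (a : ℕ) ∧ (b : ℕ) = a + 1)))

lemma Gr_adj {n κ c : ℕ} {a b : Fin (n + 1)} : (Gr n κ c).Adj a b ↔
    ((a : ℕ) < b ∧ (((a : ℕ) = 0 ∧ (b : ℕ) ≤ c) ∨ (κ < (a : ℕ) ∧ (b : ℕ) ≤ c) ∨
      (κ < (a : ℕ) ∧ (b : ℕ) = a + 1))) ∨
    ((b : ℕ) < a ∧ (((b : ℕ) = 0 ∧ (a : ℕ) ≤ c) ∨ (κ < (b : ℕ) ∧ (a : ℕ) ≤ c) ∨
      (κ < (b : ℕ) ∧ (a : ℕ) = b + 1))) := by
  unfold Gr
  rw [SimpleGraph.fromRel_adj]
  constructor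
  · rintro ⟨-, h⟩
    exact h
  · intro h
    refine ⟨?_, h⟩
    rintro rfl
    omega

lemma Gr_mono {n κ κ' c c' : ℕ} (h1 : κ' ≤ κ) (h2 : c ≤ c') : Gr n κ c ≤ Gr n κ' c' := by
  intro a b h
  rw [Gr_adj] at h ⊢
  omega

section graph

variable {n κ c : ℕ}

lemma adj_zero {v : Fin (n + 1)} (h1 : 1 ≤ (v : ℕ)) (h2 : (v : ℕ) ≤ c) :
    (Gr n κ c).Adj ⟨0, Nat.succ_pos n⟩ v := by
  rw [Gr_adj]
  exact Or.inl ⟨h1, Or.inl ⟨rfl, h2⟩⟩

lemma adj_clq {a b : Fin (n + 1)} (h1 : κ < (a : ℕ)) (h2 : (a : ℕ) ≤ c) (h3 : κ < (b : ℕ))
    (h4 : (b : ℕ) ≤ c) (h : (a : ℕ) ≠ b) : (Gr n κ c).Adj a b := by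
  rw [Gr_adj]
  rcases Nat.lt_or_gt_of_ne h with h | h
  · exact Or.inl ⟨h, Or.inr (Or.inl ⟨h1, h4⟩)⟩
  · exact Or.inr ⟨h, Or.inr (Or.inl ⟨h3, h2⟩)⟩

lemma adj_step {a b : Fin (n + 1)} (h1 : κ < (a : ℕ)) (h : (b : ℕ) = a + 1) :
    (Gr n κ c).Adj a b := by
  rw [Gr_adj]
  exact Or.inl ⟨by omega, Or.inr (Or.inr ⟨h1, h⟩)⟩

/-- levels, a 1-Lipschitz function -/
def lev (κ c : ℕ) (v : ℕ) : ℕ :=
  if v = 0 then 1 else if v ≤ κ then 0 else if v < c then 1 else v - c + 2

lemma lev_adj (hc : κ < c) {a b : Fin (n + 1)} (h : (Gr n κ c).Adj a b) :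
    lev κ c a ≤ lev κ c b + 1 := by
  rw [Gr_adj] at h
  unfold lev
  split_ifs <;> omega

lemma lev_walk (hc : κ < c) {a b : Fin (n + 1)} (p : (Gr n κ c).Walk a b) :
    lev κ c a ≤ lev κ c b + p.length := by
  induction p with
  | nil => simp
  | cons h p ih =>
    have := lev_adj hc h
    rw [SimpleGraph.Walk.length_cons]
    omega

lemma Gr_conn (hc : κ < c) (hcn : c ≤ n) : (Gr n κ c).Connected := by
  have h0 : ∀ m : ℕ, ∀ v : Fin (n + 1), (v : ℕ) = m → (Gr n κ c).Reachable ⟨0, Nat.succ_pos n⟩ v := by
    intro m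
    induction m with
    | zero =>
      intro v hv
      have : v = ⟨0, Nat.succ_pos n⟩ := Fin.ext (by simpa using hv)
      rw [this]
    | succ m ih =>
      intro v hv
      rcases Nat.lt_or_ge c (m + 1) with h | h
      · have h1 := ih ⟨m, by have := v.2; omega⟩ rfl
        exact h1.trans (SimpleGraph.Adj.reachable (adj_step (by simp only; omega)
          (by simp only; omega)))
      · exact SimpleGraph.Adj.reachable (adj_zero (by omega) (by omega))
  rw [SimpleGraph.connected_iff]
  exact ⟨fun a b => ((h0 _ a rfl).symm).trans (h0 _ b rfl), ⟨⟨0, Nat.succ_pos n⟩⟩⟩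

lemma lev_dist (hc : κ < c) (hcn : c ≤ n) (a b : Fin (n + 1)) :
    lev κ c a ≤ lev κ c b + (Gr n κ c).dist a b := by
  obtain ⟨p, hp⟩ := (Gr_conn hc hcn).exists_walk_length_eq_dist a b
  rw [← hp]
  exact lev_walk hc p

lemma dist_tail_le (hc : κ < c) (hcn : c ≤ n) : ∀ (d : ℕ) (a b : Fin (n + 1)), c ≤ (a : ℕ) →
    (b : ℕ) = a + d → (Gr n κ c).dist a b ≤ d := by
  intro d
  induction d with
  | zero =>
    intro a b _ h
    have : b = a := Fin.ext (by simpa using h)
    rw [this, SimpleGraph.dist_self]
  | succ d ih =>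
    intro a b ha h
    have h1 := ih a ⟨a + d, by have := b.2; omega⟩ ha rfl
    have h2 : (Gr n κ c).Adj ⟨a + d, by have := b.2; omega⟩ b := by
      exact adj_step (by simp only; omega) (by simp only; omega)
    have h3 := (Gr_conn hc hcn).dist_triangle (u := a) (v := ⟨a + d, by have := b.2; omega⟩)
      (w := b)
    rw [SimpleGraph.dist_eq_one_iff_adj.mpr h2] at h3
    omega

/-- upper bound for the distance to the vertex `c` -/
lemma dist_c_le (hc : κ < c) (hcn : c ≤ n) (a : Fin (n + 1)) (ha : (a : ℕ) ≤ c) :
    (Gr n κ c).dist a ⟨c, by omega⟩ ≤ 2 - lev κ c a := by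
  unfold lev
  split_ifs with h0 h1 h2
  · have : a = ⟨0, Nat.succ_pos n⟩ := Fin.ext h0
    rw [this]
    exact le_of_eq (SimpleGraph.dist_eq_one_iff_adj.mpr (adj_zero (by simp only; omega)
      (by simp only; omega)))
  · have e1 : (Gr n κ c).Adj a ⟨0, Nat.succ_pos n⟩ := (adj_zero (by omega) (by omega)).symm
    have e2 : (Gr n κ c).Adj ⟨0, Nat.succ_pos n⟩ ⟨c, by omega⟩ :=
      adj_zero (by simp only; omega) (by simp only; omega)
    have h3 := (Gr_conn hc hcn).dist_triangle (u := a) (v := ⟨0, Nat.succ_pos n⟩) (w := ⟨c, by omega⟩)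
    rw [SimpleGraph.dist_eq_one_iff_adj.mpr e1, SimpleGraph.dist_eq_one_iff_adj.mpr e2] at h3
    omega
  · exact le_of_eq (SimpleGraph.dist_eq_one_iff_adj.mpr (adj_clq (by omega) (by omega)
      (by simp only; omega) (by simp only; omega) (by simp only; omega)))
  · have : a = ⟨c, by omega⟩ := Fin.ext (by simp only; omega)
    rw [this, SimpleGraph.dist_self]
    omega

lemma dist_lev (hc : κ < c) (hcn : c ≤ n) (a b : Fin (n + 1)) (hb : c ≤ (b : ℕ))
    (hab : lev κ c a ≤ lev κ c b) : (Gr n κ c).dist a b = lev κ c b - lev κ c a := by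
  apply le_antisymm
  · rcases Nat.lt_or_ge (a : ℕ) (c + 1) with ha | ha
    · have h1 := dist_c_le hc hcn a (by omega)
      have h2 := dist_tail_le hc hcn (b - c) ⟨c, by omega⟩ b (le_refl _) (by simp only; omega)
      have h3 := (Gr_conn hc hcn).dist_triangle (u := a) (v := ⟨c, by omega⟩) (w := b)
      have h4 : lev κ c b = b - c + 2 := by unfold lev; split_ifs <;> omega
      have h5 : lev κ c a ≤ 2 := by unfold lev; split_ifs <;> omega
      omega
    · have h4 : lev κ c b = b - c + 2 := by unfold lev; split_ifs <;> omega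
      have h5 : lev κ c a = a - c + 2 := by unfold lev; split_ifs <;> omega
      exact (dist_tail_le hc hcn (b - a) a b (by omega) (by omega)).trans (by omega)
  · have := lev_dist hc hcn b a
    rw [SimpleGraph.dist_comm] at this
    omega

/-- the enumeration of the non-pendant vertices -/
def xx (n κ : ℕ) (i : ℕ) : Fin (n + 1) :=
  ⟨if i = 0 then 0 else min (κ + i) n, by split_ifs <;> omega⟩

lemma xx_val (i : ℕ) (h : κ + i ≤ n) : ((xx n κ i : Fin (n + 1)) : ℕ) = if i = 0 then 0 else κ + i := by
  unfold xx
  simp only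
  split_ifs <;> omega

lemma xx_pos (i : ℕ) (hi : i ≠ 0) (h : κ + i ≤ n) : ((xx n κ i : Fin (n + 1)) : ℕ) = κ + i := by
  rw [xx_val i h, if_neg hi]

lemma xx_zero : ((xx n κ 0 : Fin (n + 1)) : ℕ) = 0 := rfl

lemma lev_xx_tail (hc : κ < c) (hcn : c ≤ n) (j : ℕ) (hj : j ≤ n - c) :
    lev κ c (xx n κ (c - κ + j)) = j + 2 := by
  rw [xx_pos _ (by omega) (by omega)]
  unfold lev
  split_ifs <;> omega

lemma Gr_sys (hc : κ < c) (hcn : c ≤ n) (hκ : 1 ≤ κ) :
    Sys (Gr n κ c) (xx n κ) (Finset.Icc ⟨1, by omega⟩ ⟨κ, by omega⟩) (c - κ) (n - c) κ := by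
  have hQ : ∀ q : Fin (n + 1), q ∈ Finset.Icc (⟨1, by omega⟩ : Fin (n + 1)) ⟨κ, by omega⟩ ↔
      1 ≤ (q : ℕ) ∧ (q : ℕ) ≤ κ := by
    intro q
    rw [Finset.mem_Icc, Fin.le_def, Fin.le_def]
  have levQ : ∀ q : Fin (n + 1), 1 ≤ (q : ℕ) → (q : ℕ) ≤ κ → lev κ c q = 0 := by
    intro q h1 h2
    unfold lev
    split_ifs <;> omega
  refine ⟨Gr_conn hc hcn, ?_, ?_, ?_, by omega, ?_, ?_, ?_, ?_, ?_, ?_, ?_, ?_⟩
  · intro i j hi hj h
    have := congrArg Fin.val h
    rw [xx_val i (by omega), xx_val j (by omega)] at this
    split_ifs at this <;> omega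
  · intro i hi
    have h1 := xx_pos (n := n) (κ := κ) (i + 1) (by omega) (by omega)
    rcases Nat.eq_zero_or_pos i with rfl | h0
    · exact adj_zero (by omega) (by omega)
    · have h2 := xx_pos (n := n) (κ := κ) i (by omega) (by omega)
      exact adj_step (by omega) (by omega)
  · intro i j hi hj hij
    rcases Nat.eq_zero_or_pos i with rfl | h0
    · have h1 := xx_pos (n := n) (κ := κ) j (by omega) (by omega)
      exact adj_zero (by omega) (by omega)
    · have h1 := xx_pos (n := n) (κ := κ) i (by omega) (by omega)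
      rcases Nat.eq_zero_or_pos j with rfl | h0'
      · exact (adj_zero (by omega) (by omega)).symm
      · have h2 := xx_pos (n := n) (κ := κ) j (by omega) (by omega)
        exact adj_clq (by omega) (by omega) (by omega) (by omega) (by omega)
  · intro i hi j hj
    have h1 : lev κ c (xx n κ i) = 1 := by
      rw [xx_val i (by omega)]
      unfold lev
      split_ifs <;> omega
    rw [dist_lev hc hcn _ _ (by rw [xx_pos _ (by omega) (by omega)]; omega), h1,
      lev_xx_tail hc hcn j hj]
    · omega
    · rw [h1, lev_xx_tail hc hcn j hj]; omega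
  · intro i j hij hj
    rw [dist_lev hc hcn _ _ (by rw [xx_pos _ (by omega) (by omega)]; omega),
      lev_xx_tail hc hcn j hj, lev_xx_tail hc hcn i (by omega)]
    · omega
    · rw [lev_xx_tail hc hcn j hj, lev_xx_tail hc hcn i (by omega)]; omega
  · rw [Fin.card_Icc]
    simp only
    omega
  · intro i hi h
    rw [hQ, xx_val i (by omega)] at h
    split_ifs at h <;> omega
  · intro q hq
    rw [hQ] at hq
    exact (adj_zero (by omega) (by omega)).symm
  · intro q hq j hj
    rw [hQ] at hq
    rw [dist_lev hc hcn _ _ (by rw [xx_pos _ (by omega) (by omega)]; omega), levQ q hq.1 hq.2,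
      lev_xx_tail hc hcn j hj]
    · omega
    · rw [levQ q hq.1 hq.2]; omega
  · intro q hq i h1 hi
    rw [hQ] at hq
    have hx := xx_pos (n := n) (κ := κ) i (by omega) (by omega)
    have e1 : (Gr n κ c).Adj q ⟨0, Nat.succ_pos n⟩ := (adj_zero (by omega) (by omega)).symm
    have e2 : (Gr n κ c).Adj ⟨0, Nat.succ_pos n⟩ (xx n κ i) := adj_zero (by omega) (by omega)
    have h3 := (Gr_conn hc hcn).dist_triangle (u := q) (v := ⟨0, Nat.succ_pos n⟩) (w := xx n κ i)
    rw [SimpleGraph.dist_eq_one_iff_adj.mpr e1, SimpleGraph.dist_eq_one_iff_adj.mpr e2] at h3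
    have h4 : (Gr n κ c).dist q (xx n κ i) ≠ 0 := by
      have hne : q ≠ xx n κ i := by
        intro h
        have := congrArg Fin.val h
        omega
      exact ((Gr_conn hc hcn).pos_dist_of_ne hne).ne'
    have h5 : (Gr n κ c).dist q (xx n κ i) ≠ 1 := by
      intro h
      rw [SimpleGraph.dist_eq_one_iff_adj, Gr_adj, hx] at h
      omega
    omega
  · intro v
    rcases Nat.lt_or_ge κ (v : ℕ) with h | h
    · refine Or.inr ⟨v - κ, by have := v.2; omega, Fin.ext ?_⟩
      rw [xx_pos _ (by omega) (by have := v.2; omega)]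
      omega
    · rcases Nat.eq_zero_or_pos (v : ℕ) with h0 | h0
      · refine Or.inr ⟨0, by omega, Fin.ext ?_⟩
        rw [xx_zero, h0]
      · exact Or.inl ((hQ v).mpr ⟨h0, h⟩)

lemma Gr_stackable (hc : κ < c) (hcn : c ≤ n) (hκ : 3 ≤ κ) (hL : 8 * κ + 12 ≤ n - c) :
    Stackable (Gr n κ c) :=
  sys_stackable (Gr_sys hc hcn (by omega)) hκ hL

/-! ### Non-stackability -/

lemma dist_bound (hc : κ < c) (hcn : c ≤ n) (a b : Fin (n + 1)) :
    (Gr n κ c).dist a b ≤ 2 * (n - c + 2) := by
  have key : ∀ a : Fin (n + 1), (Gr n κ c).dist a ⟨c, by omega⟩ ≤ n - c + 2 := by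
    intro a
    rcases Nat.lt_or_ge (a : ℕ) (c + 1) with ha | ha
    · have := dist_c_le hc hcn a (by omega)
      omega
    · have h2 := dist_tail_le hc hcn (a - c) ⟨c, by omega⟩ a (le_refl _) (by simp only; omega)
      rw [SimpleGraph.dist_comm] at h2
      have := a.2
      omega
  have h1 := key a
  have h2 := key b
  rw [SimpleGraph.dist_comm] at h2
  have h3 := (Gr_conn hc hcn).dist_triangle (u := a) (v := ⟨c, by omega⟩) (w := b)
  omega

/-- the potential of a vertex carrying `a` cups -/
def pot (κ c D : ℕ) (v a : ℕ) : ℤ :=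
  if 2 ≤ v ∧ v ≤ κ then (if a = 0 ∨ a = 2 then -1 else 0)
  else if v = 0 ∨ c < v then (if a = 0 then (D : ℤ) else (a : ℤ) - 1)
  else 0

lemma pot_move (hc : κ < c) (hcn : c ≤ n) {s s' : Fin (n + 1) → ℕ}
    (h : Move (Gr n κ c) s s') :
    ∑ v : Fin (n + 1), pot κ c (2 * (n - c + 2)) v (s v) ≤ ∑ v : Fin (n + 1), pot κ c (2 * (n - c + 2)) v (s' v) := by
  obtain ⟨x, y, hxy, hx, hy, hd, rfl⟩ := h
  set D := 2 * (n - c + 2) with hD
  have hr : s x ≤ D := by rw [← hd]; exact dist_bound hc hcn x y
  rw [← sub_nonneg, ← Finset.sum_sub_distrib]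
  have hsum : ∑ v : Fin (n + 1), (pot κ c D v (Function.update (Function.update s y (s y + s x)) x 0 v) -
      pot κ c D v (s v)) = (pot κ c D x 0 - pot κ c D x (s x)) +
      (pot κ c D y (s y + s x) - pot κ c D y (s y)) := by
    rw [Finset.sum_eq_add x y hxy]
    · simp [hxy.symm]
    · intro z _ hz
      simp [hz.1, hz.2]
    · intro h; exact absurd (mem_univ _) h
    · intro h; exact absurd (mem_univ _) h
  rw [hsum]
  -- adjacency of pendant vertices
  have hpend : ∀ a b : Fin (n + 1), 2 ≤ (a : ℕ) → (a : ℕ) ≤ κ → (Gr n κ c).dist a b = 1 →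
      (b : ℕ) = 0 := by
    intro a b h1 h2 h3
    rw [SimpleGraph.dist_eq_one_iff_adj, Gr_adj] at h3
    omega
  have hpend3 : ∀ a b : Fin (n + 1), 2 ≤ (a : ℕ) → (a : ℕ) ≤ κ → 3 ≤ (Gr n κ c).dist a b →
      c < (b : ℕ) := by
    intro a b h1 h2 h3
    by_contra hb
    rcases Nat.eq_zero_or_pos (b : ℕ) with h0 | h0
    · have e1 : (Gr n κ c).Adj a b := by
        have : b = ⟨0, Nat.succ_pos n⟩ := Fin.ext h0
        rw [this]
        exact (adj_zero (by omega) (by omega)).symm
      rw [SimpleGraph.dist_eq_one_iff_adj.mpr e1] at h3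
      omega
    · have e1 : (Gr n κ c).Adj a ⟨0, Nat.succ_pos n⟩ := (adj_zero (by omega) (by omega)).symm
      have e2 : (Gr n κ c).Adj ⟨0, Nat.succ_pos n⟩ b := adj_zero h0 (by omega)
      have h4 := (Gr_conn hc hcn).dist_triangle (u := a) (v := ⟨0, Nat.succ_pos n⟩) (w := b)
      rw [SimpleGraph.dist_eq_one_iff_adj.mpr e1, SimpleGraph.dist_eq_one_iff_adj.mpr e2] at h4
      omega
  have h1 := hpend x y
  have h3 := hpend3 x y
  have h1' := hpend y x
  rw [SimpleGraph.dist_comm] at h1'
  rw [hd] at h1 h3 h1'
  have hxv : (x : ℕ) ≠ y := fun h => hxy (Fin.ext h)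
  unfold pot
  have hDr : ((s x : ℕ) : ℤ) ≤ (D : ℤ) := by exact_mod_cast hr
  have hx' : (1 : ℤ) ≤ (s x : ℤ) := by exact_mod_cast hx
  have hy' : (1 : ℤ) ≤ (s y : ℤ) := by exact_mod_cast hy
  push_cast
  split_ifs <;> omega

lemma Gr_not_stackable (hc : κ < c) (hcn : c ≤ n) (hκ : 1 ≤ κ)
    (hbig : (n - c + 1) * (2 * (n - c + 2)) < κ - 1) : ¬ Stackable (Gr n κ c) := by
  intro hst
  obtain ⟨s, hs, hs0⟩ := hst ⟨1, by omega⟩
  have hmono : ∀ s : Fin (n + 1) → ℕ, ReflTransGen (Move (Gr n κ c)) (fun _ => 1) s →
      0 ≤ ∑ v : Fin (n + 1), pot κ c (2 * (n - c + 2)) v (s v) := by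
    intro s hs
    induction hs with
    | refl =>
      refine Finset.sum_nonneg fun v _ => ?_
      have : pot κ c (2 * (n - c + 2)) v 1 = 0 := by unfold pot; simp
      exact le_of_eq this.symm
    | tail _ h ih => exact ih.trans (pot_move hc hcn h)
  have hfin := hmono s hs
  set D := 2 * (n - c + 2) with hD
  have hle : ∀ v : Fin (n + 1), pot κ c D v (s v) ≤
      (if 2 ≤ (v : ℕ) ∧ (v : ℕ) ≤ κ then -1 else 0) +
      (if (v : ℕ) = 0 ∨ c < (v : ℕ) then (D : ℤ) else 0) := by
    intro v
    by_cases hv : v = ⟨1, by omega⟩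
    · subst hv
      have e : pot κ c D 1 (s ⟨1, by omega⟩) = 0 := by
        unfold pot
        rw [if_neg (by omega), if_neg (by omega)]
      show pot κ c D 1 (s ⟨1, by omega⟩) ≤ (if 2 ≤ 1 ∧ 1 ≤ κ then -1 else 0) +
        (if 1 = 0 ∨ c < 1 then (D : ℤ) else 0)
      rw [e, if_neg (by omega), if_neg (by omega)]
      norm_num
    · have h0 := hs0 v hv
      unfold pot
      rw [h0]
      split_ifs <;> omega
  have hsum := Finset.sum_le_sum (fun v (_ : v ∈ (univ : Finset (Fin (n + 1)))) => hle v)
  rw [Finset.sum_add_distrib, ← Finset.sum_filter, ← Finset.sum_filter, Finset.sum_const,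
    Finset.sum_const] at hsum
  have c1 : (univ.filter fun v : Fin (n + 1) => 2 ≤ (v : ℕ) ∧ (v : ℕ) ≤ κ).card = κ - 1 := by
    have : (univ.filter fun v : Fin (n + 1) => 2 ≤ (v : ℕ) ∧ (v : ℕ) ≤ κ) =
        (Finset.Icc 2 κ).attachFin (fun m hm => by rw [Finset.mem_Icc] at hm; omega) := by
      ext v
      simp [Finset.mem_attachFin]
    rw [this, Finset.card_attachFin, Nat.card_Icc]
    omega
  have c2 : (univ.filter fun v : Fin (n + 1) => (v : ℕ) = 0 ∨ c < (v : ℕ)).card = n - c + 1 := by
    have : (univ.filter fun v : Fin (n + 1) => (v : ℕ) = 0 ∨ c < (v : ℕ)) =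
        (insert 0 (Finset.Ioc c n)).attachFin (fun m hm => by
          rw [Finset.mem_insert, Finset.mem_Ioc] at hm; omega) := by
      ext v
      have := v.2
      simp only [mem_filter, mem_univ, true_and, Finset.mem_attachFin, mem_insert, mem_Ioc]
      omega
    rw [this, Finset.card_attachFin, card_insert_of_notMem, Nat.card_Ioc]
    rw [mem_Ioc]
    omega
  rw [c1, c2] at hsum
  simp only [nsmul_eq_mul, mul_neg, mul_one] at hsum
  have hbig' : ((n - c + 1 : ℕ) : ℤ) * (D : ℤ) < ((κ - 1 : ℕ) : ℤ) := by
    exact_mod_cast hbig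
  linarith

end graph

/-! ### The chain -/

/-- number of pendant vertices, from small to large -/
def kap : ℕ → ℕ
  | 0 => 3
  | j + 1 => 2 + (8 * kap j + 12 + 1) * (2 * (8 * kap j + 12 + 2))

/-- lengths of tails -/
def tl (j : ℕ) : ℕ := 8 * kap j + 12

lemma kap_ge (j : ℕ) : 3 ≤ kap j := by
  induction j with
  | zero => exact le_rfl
  | succ j ih => rw [kap]; nlinarith

lemma kap_succ (j : ℕ) : kap j ≤ kap (j + 1) := by
  have := kap_ge j
  rw [kap]
  nlinarith

lemma kap_mono {i j : ℕ} (h : i ≤ j) : kap i ≤ kap j := by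
  exact monotone_nat_of_le_succ kap_succ h

/-- **Main theorem (affirmative answer to Q1).** -/
theorem result : ∀ r : ℕ, ∃ (N : ℕ) (G : ℕ → SimpleGraph (Fin N)),
    (∀ i, 1 ≤ i → i < r → G i ≤ G (i + 1)) ∧
    ∀ i, 1 ≤ i → i ≤ r → (G i).Connected ∧ (Odd i → Stackable (G i)) ∧
      (Even i → ¬ Stackable (G i)) := by
  intro r
  set n := kap r + 1 + tl r with hn
  have hk3 := kap_ge
  have tlmono : ∀ {i j : ℕ}, i ≤ j → tl i ≤ tl j := by
    intro i j h
    have := kap_mono h
    unfold tl
    omega
  refine ⟨n + 1, fun i => Gr n (kap (r - (i - 1) / 2)) (n - tl (r - i / 2)), ?_, ?_⟩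
  · intro i hi hir
    refine Gr_mono (kap_mono (by omega)) ?_
    have := tlmono (show r - (i + 1) / 2 ≤ r - i / 2 by omega)
    show n - tl (r - i / 2) ≤ n - tl (r - (i + 1) / 2)
    omega
  · intro i hi hir
    have h1 : kap (r - (i - 1) / 2) ≤ kap r := kap_mono (by omega)
    have h2 : tl (r - i / 2) ≤ tl r := tlmono (by omega)
    have hc : kap (r - (i - 1) / 2) < n - tl (r - i / 2) := by omega
    refine ⟨Gr_conn hc (by omega), ?_, ?_⟩
    · rintro ⟨s, hs⟩
      have e : (i - 1) / 2 = i / 2 := by omega
      refine Gr_stackable hc (by omega) (hk3 _) ?_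
      rw [e]
      have : n - (n - tl (r - i / 2)) = tl (r - i / 2) := by omega
      rw [this]
      exact le_refl _
    · rintro ⟨s, hs⟩
      have e1 : (i - 1) / 2 = s - 1 := by omega
      have e2 : i / 2 = s := by omega
      refine Gr_not_stackable hc (by omega) (by have := hk3 (r - (i - 1) / 2); omega) ?_
      rw [e1, e2]
      have : n - (n - tl (r - s)) = tl (r - s) := by rw [e2] at h2; omega
      rw [this, show r - (s - 1) = (r - s) + 1 by omega, kap]
      unfold tl
      omega

end Pool.Agent.Results.MP_28cddd_co.AlternatingChains
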